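import Pool.Agent.L5helper15.NL.Chunk

set_option autoImplicit false

/-! # A block on which the second base is near a linear function of the first one -/

namespace Pool.Agent.L5helper15.NL

open Finset
open Pool.Agent.N741.PB (Pair ISol line_main ev_rpow)

/-- the conclusion of `chunk` at `B` -/
def ChunkAt (B : ℕ) (W : ℝ) : Prop := ∀ X₀ b Y₀ a : ℤ, 0 < b →
    (|(X₀ : ℝ)| + b * B ≤ W) → (|(Y₀ : ℝ)| + |(a : ℝ)| * B ≤ W) →
    ∀ T : Finset ℤ, (∀ t ∈ T, |t| ≤ B ∧ Pair 2 W (X₀ + b * t) (Y₀ + a * t)) →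
      (T.card : ℝ) ≤ (B : ℝ) ^ (3 / 4 : ℝ)

theorem block {B L U : ℕ} {W : ℝ} (hch : ChunkAt B W) (hB : 1 ≤ B) (hBL : B * B ≤ L) (n₀ : ℤ)
    (g : ℤ → ℝ) (u : ℝ) (hlin : ∀ m : ℤ, 0 ≤ m → m < L → |g (n₀ + m) - g n₀ - u * m| ≤ 1)
    (hX : |(n₀ : ℝ)| + 3 * L ≤ W) (hY : |g n₀| + 3 * L * |u| + U + 4 + B ≤ W)
    (S : Finset (ℤ × ℤ)) (hS : ∀ v ∈ S, n₀ ≤ v.1 ∧ v.1 < n₀ + L ∧ |(v.2 : ℝ) - g v.1| ≤ U ∧
      Pair 2 W v.1 v.2) :
    (S.card : ℝ) ≤ (2 * (L / B : ℝ) * (2 * U + 7)) * (B : ℝ) ^ (3 / 4 : ℝ) := by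
  classical
  have hB0 : (0 : ℝ) < B := by exact_mod_cast hB
  obtain ⟨a, b, hb0, hbB, hab⟩ := Real.exists_int_int_abs_mul_sub_le u hB
  have hbR : (0 : ℝ) < b := by exact_mod_cast hb0
  have hbBR : (b : ℝ) ≤ B := by exact_mod_cast hbB
  obtain ⟨bn, rfl⟩ : ∃ bn : ℕ, b = bn := ⟨b.toNat, by omega⟩
  have hbn : 1 ≤ bn := by omega
  have hbnB : bn ≤ B := by exact_mod_cast hbB
  push_cast at *
  rw [mul_comm (bn : ℝ) u] at hab
  -- the index set
  set J : Finset ((ℕ × ℕ) × ℤ) :=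
    (range bn ×ˢ range (L / (bn * B) + 1)) ×ˢ Icc (-((U : ℤ) + 3)) ((U : ℤ) + 3) with hJ
  set X₀ : (ℕ × ℕ) × ℤ → ℤ := fun e => n₀ + e.1.1 + bn * B * e.1.2 with hX₀
  set Y₀ : (ℕ × ℕ) × ℤ → ℤ := fun e => ⌊g n₀ + u * ((e.1.1 : ℝ) + bn * B * e.1.2)⌋ + e.2 with hY₀
  set T : (ℕ × ℕ) × ℤ → Finset ℤ := fun e => (Icc (0 : ℤ) B).filter
    (fun t => (X₀ e + bn * t, Y₀ e + a * t) ∈ S) with hT
  have hcover : S ⊆ J.biUnion (fun e => (T e).image (fun t => (X₀ e + bn * t, Y₀ e + a * t))) := by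
    rintro ⟨x, y⟩ hv
    obtain ⟨h1, h2, h3, h4⟩ := hS _ hv
    simp only at h1 h2 h3 h4
    obtain ⟨m, hm⟩ : ∃ m : ℕ, x = n₀ + m := ⟨(x - n₀).toNat, by omega⟩
    have hmL : m < L := by
      have : (m : ℤ) < L := by omega
      exact_mod_cast this
    set s := m % bn with hs
    set q := m / bn with hq
    set q₁ := q / B with hq₁
    set t := q % B with ht
    have hm1 : m = s + bn * (t + B * q₁) := by
      rw [ht, hq₁, Nat.mod_add_div, hs, hq, Nat.mod_add_div]
    have hsb : s < bn := Nat.mod_lt _ hbn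
    have htB : t < B := Nat.mod_lt _ hB
    have hlin' := hlin m (by omega) (by exact_mod_cast hmL)
    rw [← hm] at hlin'
    set G₀ : ℝ := g n₀ + u * ((s : ℝ) + bn * B * q₁) with hG₀
    have hG : |(y : ℝ) - (G₀ + a * t)| ≤ U + 2 := by
      have e1 : (y : ℝ) - (G₀ + a * t) = ((y : ℝ) - g x) + (g x - g n₀ - u * (m : ℤ)) + (u * bn - a) * t := by
        rw [hG₀]
        have : ((m : ℤ) : ℝ) = (s : ℝ) + bn * (t + B * q₁) := by
          rw [Int.cast_natCast, hm1]; push_cast; ring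
        rw [this]; ring
      rw [e1]
      have e2 : |(u * bn - a) * t| ≤ 1 := by
        rw [abs_mul]
        have e3 : |u * bn - a| ≤ 1 / (B + 1) := hab
        have e4 : |((t : ℕ) : ℝ)| ≤ B := by
          rw [abs_of_nonneg (Nat.cast_nonneg t)]; exact_mod_cast htB.le
        calc |u * bn - a| * |(t : ℝ)| ≤ 1 / (B + 1) * B := by gcongr
          _ ≤ 1 := by
            rw [div_mul_eq_mul_div, one_mul, div_le_one (by positivity)]
            linarith
      calc _ ≤ |(y : ℝ) - g x| + |g x - g n₀ - u * (m : ℤ)| + |(u * bn - a) * t| := abs_add_three _ _ _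
        _ ≤ U + 1 + 1 := by gcongr
        _ = U + 2 := by ring
    obtain ⟨j, hj⟩ : ∃ j : ℤ, y = ⌊G₀⌋ + j + a * t := ⟨y - ⌊G₀⌋ - a * t, by ring⟩
    have hjb : -((U : ℤ) + 3) ≤ j ∧ j ≤ (U : ℤ) + 3 := by
      have f1 := Int.floor_le G₀
      have f2 := Int.lt_floor_add_one G₀
      obtain ⟨f3, f4⟩ := abs_le.mp hG
      have f5 : (y : ℝ) = ⌊G₀⌋ + j + a * t := by rw [hj]; push_cast; ring
      constructor
      · have : (-((U : ℝ) + 3)) ≤ j := by linarith
        exact_mod_cast this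
      · have : (j : ℝ) ≤ (U : ℝ) + 3 := by linarith
        exact_mod_cast this
    rw [mem_biUnion]
    have hxe : X₀ ((s, q₁), j) + bn * t = x := by
      simp only [hX₀]
      rw [hm, hm1]; push_cast; ring
    have hye : Y₀ ((s, q₁), j) + a * t = y := by
      simp only [hY₀]
      rw [hj]
    refine ⟨((s, q₁), j), ?_, ?_⟩
    · simp only [hJ, mem_product, mem_range, mem_Icc]
      refine ⟨⟨hsb, ?_⟩, hjb⟩
      rw [Nat.lt_succ_iff, hq₁, hq, Nat.div_div_eq_div_mul]
      exact Nat.div_le_div_right hmL.le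
    · rw [mem_image]
      refine ⟨(t : ℤ), ?_, by rw [hxe, hye]⟩
      simp only [hT, mem_filter, mem_Icc]
      refine ⟨⟨by omega, by exact_mod_cast htB.le⟩, ?_⟩
      rw [hxe, hye]; exact hv
  have hTc : ∀ e ∈ J, (((T e).image (fun t => (X₀ e + bn * t, Y₀ e + a * t))).card : ℝ) ≤
      (B : ℝ) ^ (3 / 4 : ℝ) := by
    rintro ⟨⟨s, q₁⟩, j⟩ he
    have hc1 : (((T ((s, q₁), j)).image (fun t => (X₀ ((s, q₁), j) + bn * t, Y₀ ((s, q₁), j) + a * t))).card : ℝ) ≤
        ((T ((s, q₁), j)).card : ℝ) := by exact_mod_cast card_image_le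
    refine hc1.trans ?_
    by_cases hne : (T ((s, q₁), j)).Nonempty
    · simp only [hJ, mem_product, mem_range, mem_Icc] at he
      obtain ⟨⟨hs, hq⟩, hj1, hj2⟩ := he
      -- the size of `q₁`
      have hqL : bn * B * q₁ ≤ L := by
        calc bn * B * q₁ ≤ bn * B * (L / (bn * B)) := Nat.mul_le_mul_left _ (by omega)
          _ ≤ L := Nat.mul_div_le _ _
      have hqL' : (bn : ℝ) * B * q₁ ≤ L := by exact_mod_cast hqL
      have hsB : (s : ℝ) ≤ B := by exact_mod_cast (by omega : s ≤ B)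
      have hBL' : (B : ℝ) * B ≤ L := by exact_mod_cast hBL
      have hB1 : (1 : ℝ) ≤ B := by exact_mod_cast hB
      have hBL1 : (B : ℝ) ≤ L := by nlinarith
      have hbB' : (bn : ℝ) * B ≤ L := by
        calc (bn : ℝ) * B ≤ B * B := by gcongr
          _ ≤ L := hBL'
      have hsq : (s : ℝ) + bn * B * q₁ ≤ 2 * L := by linarith
      have hsq0 : (0 : ℝ) ≤ (s : ℝ) + bn * B * q₁ := by positivity
      apply hch (X₀ ((s, q₁), j)) bn (Y₀ ((s, q₁), j)) a (by exact_mod_cast hbn)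
      · simp only [hX₀]
        push_cast
        calc |(n₀ : ℝ) + s + bn * B * q₁| + bn * B ≤ (|(n₀ : ℝ)| + |(s : ℝ) + bn * B * q₁|) + bn * B := by
              gcongr
              rw [add_assoc]
              exact abs_add_le _ _
          _ ≤ (|(n₀ : ℝ)| + 2 * L) + L := by
              rw [abs_of_nonneg hsq0]
              gcongr
          _ = |(n₀ : ℝ)| + 3 * L := by ring
          _ ≤ W := hX
      · simp only [hY₀]
        push_cast
        set G₀ : ℝ := g n₀ + u * ((s : ℝ) + bn * B * q₁) with hG₀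
        have e1 : |((⌊G₀⌋ : ℤ) : ℝ)| ≤ |G₀| + 1 := by
          have f1 := Int.floor_le G₀
          have f2 := Int.lt_floor_add_one G₀
          rw [abs_le]
          constructor
          · linarith [neg_abs_le G₀]
          · linarith [le_abs_self G₀]
        have e2 : |G₀| ≤ |g n₀| + |u| * (2 * L) := by
          rw [hG₀]
          refine (abs_add_le _ _).trans ?_
          rw [abs_mul, abs_of_nonneg hsq0]
          gcongr
        have e3 : |(j : ℝ)| ≤ U + 3 := by
          rw [abs_le]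
          constructor
          · exact_mod_cast hj1
          · exact_mod_cast hj2
        have e4 : |(a : ℝ)| ≤ |u| * B + 1 := by
          have f1 : |(a : ℝ)| ≤ |u * bn| + |u * bn - a| := by
            have := abs_sub_abs_le_abs_sub (a : ℝ) (u * bn)
            rw [abs_sub_comm (a : ℝ)] at this
            linarith
          have f2 : |u * bn - a| ≤ 1 := hab.trans (by
            rw [div_le_one (by positivity)]; linarith)
          have f3 : |u * bn| ≤ |u| * B := by
            rw [abs_mul, abs_of_pos hbR]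
            gcongr
          linarith
        calc |((⌊G₀⌋ : ℤ) : ℝ) + j| + |(a : ℝ)| * B ≤ (|((⌊G₀⌋ : ℤ) : ℝ)| + |(j : ℝ)|) + |(a : ℝ)| * B := by
              gcongr; exact abs_add_le _ _
          _ ≤ ((|g n₀| + |u| * (2 * L) + 1) + (U + 3)) + (|u| * B + 1) * B := by
              gcongr
              linarith
          _ = |g n₀| + |u| * (2 * L) + |u| * (B * B) + U + 4 + B := by ring
          _ ≤ |g n₀| + |u| * (2 * L) + |u| * L + U + 4 + B := by gcongr
          _ = |g n₀| + 3 * L * |u| + U + 4 + B := by ring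
          _ ≤ W := hY
      · intro t ht
        simp only [hT, mem_filter, mem_Icc] at ht
        refine ⟨abs_le.mpr ⟨by omega, by omega⟩, (hS _ ht.2).2.2.2⟩
    · rw [Finset.not_nonempty_iff_eq_empty] at hne
      rw [hne, card_empty, Nat.cast_zero]
      positivity
  have hJc : (J.card : ℝ) ≤ 2 * (L / B : ℝ) * (2 * U + 7) := by
    have h1 : J.card = (bn * (L / (bn * B) + 1)) * (2 * U + 7) := by
      rw [hJ, card_product, card_product, card_range, card_range, Int.card_Icc]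
      congr 1
      omega
    rw [h1]
    push_cast
    have h2 : ((L / (bn * B) : ℕ) : ℝ) ≤ (L : ℝ) / (bn * B) := by
      have := Nat.cast_div_le (α := ℝ) (m := L) (n := bn * B)
      push_cast at this
      exact this
    have h3 : (B : ℝ) ≤ L / B := by
      rw [le_div_iff₀ hB0]; exact_mod_cast hBL
    have h4 : (bn : ℝ) * ((L / (bn * B) : ℕ) + 1) ≤ 2 * (L / B) := by
      calc (bn : ℝ) * ((L / (bn * B) : ℕ) + 1) ≤ bn * ((L : ℝ) / (bn * B) + 1) := by gcongr
        _ = L / B + bn := by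
            have : (bn : ℝ) ≠ 0 := by positivity
            field_simp
        _ ≤ L / B + L / B := by linarith
        _ = 2 * (L / B) := by ring
    gcongr
  have h1 : (S.card : ℝ) ≤ ∑ e ∈ J, (((T e).image (fun t => (X₀ e + bn * t, Y₀ e + a * t))).card : ℝ) := by
    exact_mod_cast (card_le_card hcover).trans card_biUnion_le
  refine h1.trans ((sum_le_sum hTc).trans ?_)
  rw [sum_const, nsmul_eq_mul]
  gcongr

end Pool.Agent.L5helper15.NL
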