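import Pool.Agent.N741.PB.LineMain

set_option autoImplicit false

/-! # Bases in two arithmetic progressions -/

namespace Pool.Agent.L5helper15.NL

open Finset Polynomial
open Pool.Agent.N741.PB (Pair ISol line_main ev_rpow)

/-- `F(t) = X₀ + b t`, `G(t) = Y₀ + a t` -/
theorem chunk : ∃ c : ℝ, 0 < c ∧ c ≤ 1 ∧ ∃ B₀ : ℕ, ∀ B : ℕ, B₀ ≤ B → ∀ X₀ b Y₀ a : ℤ, 0 < b →
    (|(X₀ : ℝ)| + b * B ≤ Real.exp ((B : ℝ) ^ c)) → (|(Y₀ : ℝ)| + |(a : ℝ)| * B ≤ Real.exp ((B : ℝ) ^ c)) →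
    ∀ T : Finset ℤ, (∀ t ∈ T, |t| ≤ B ∧ Pair 2 (Real.exp ((B : ℝ) ^ c)) (X₀ + b * t) (Y₀ + a * t)) →
      (T.card : ℝ) ≤ (B : ℝ) ^ (3 / 4 : ℝ) := by
  obtain ⟨c, hc0, -, hc1, N₀, h⟩ := line_main 2 le_rfl (1 / 4) (by norm_num)
  refine ⟨c, hc0, hc1, N₀ + 1, fun B hB X₀ b Y₀ a hb hX hY T hT => ?_⟩
  have hB1 : (1 : ℝ) ≤ B := by exact_mod_cast (by omega : 1 ≤ B)
  have hBc : (1 : ℝ) ≤ (B : ℝ) ^ c := Real.one_le_rpow hB1 hc0.le
  have hdeg : ∀ u v : ℤ, (C u + C v * X : ℤ[X]).natDegree ≤ 1 := by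
    intro u v
    refine (natDegree_add_le _ _).trans (max_le (by simp) ?_)
    exact (natDegree_C_mul_le _ _).trans (by simp)
  have hdb : 0 < (C X₀ + C b * X : ℤ[X]).natDegree := by
    rw [add_comm, natDegree_add_C, natDegree_C_mul_X _ hb.ne']
    exact one_pos
  have hev : ∀ u v n : ℤ, (C u + C v * X : ℤ[X]).eval n = u + v * n := by
    intro u v n; simp
  have h1 := h B (by omega) (C X₀ + C b * X) (C Y₀ + C a * X) (Or.inl hdb)
    (le_trans (by exact_mod_cast hdeg _ _) hBc) (le_trans (by exact_mod_cast hdeg _ _) hBc) (by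
      intro n hn
      have hn' : |(n : ℝ)| ≤ B := by
        have : ((|n| : ℤ) : ℝ) ≤ ((B : ℤ) : ℝ) := by exact_mod_cast hn
        rwa [Int.cast_abs, Int.cast_natCast] at this
      rw [hev, hev]
      push_cast
      constructor
      · refine le_trans (abs_add_le _ _) (le_trans ?_ hX)
        rw [abs_mul, abs_of_pos (by exact_mod_cast hb : (0 : ℝ) < b)]
        gcongr
      · refine le_trans (abs_add_le _ _) (le_trans ?_ hY)
        rw [abs_mul]
        gcongr) T (by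
      intro n hn
      rw [hev, hev]
      exact hT n hn)
  refine h1.trans (le_of_eq ?_)
  norm_num

end Pool.Agent.L5helper15.NL
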