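import Pool.Agent.L5helper15.NL.Block

set_option autoImplicit false

/-! # Integer points near a curve with small second differences -/

namespace Pool.Agent.L5helper15.NL

open Finset Filter
open Pool.Agent.N741.PB (Pair ISol line_main ev_rpow)

theorem pair_mono {R : ℕ} {W W' : ℝ} {a b : ℤ} (h : Pair R W a b) (hW : W ≤ W') : Pair R W' a b := by
  obtain ⟨c, l, m, k, s, t, h1, h2, h3⟩ := h
  exact ⟨c, l, m, k, s, t, h1, h2, h3.trans hW⟩

/-- linear approximation from small second differences -/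
theorem linear {g : ℤ → ℝ} {n₀ : ℤ} {L : ℕ} {lam : ℝ} (hlam : 0 ≤ lam)
    (h : ∀ k : ℕ, k + 2 < L → |g (n₀ + k + 2) - 2 * g (n₀ + k + 1) + g (n₀ + k)| ≤ lam) (m : ℕ)
    (hm : m < L) : |g (n₀ + m) - g n₀ - (g (n₀ + 1) - g n₀) * m| ≤ lam * (L : ℝ) ^ 2 := by
  have h1 : ∀ k : ℕ, k + 1 < L →
      |(g (n₀ + k + 1) - g (n₀ + k)) - (g (n₀ + 1) - g n₀)| ≤ lam * k := by
    intro k
    induction k with
    | zero => intro _; simp
    | succ k ih =>
      intro hk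
      have h2 := ih (by omega)
      have h3 := h k (by omega)
      have e : (g (n₀ + (k + 1 : ℕ) + 1) - g (n₀ + (k + 1 : ℕ))) - (g (n₀ + 1) - g n₀) =
          ((g (n₀ + k + 1) - g (n₀ + k)) - (g (n₀ + 1) - g n₀)) +
            (g (n₀ + k + 2) - 2 * g (n₀ + k + 1) + g (n₀ + k)) := by
        push_cast
        rw [show n₀ + ((k : ℤ) + 1) + 1 = n₀ + k + 2 by ring, show n₀ + ((k : ℤ) + 1) = n₀ + k + 1 by ring]
        ring
      rw [e]
      refine (abs_add_le _ _).trans ?_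
      push_cast
      linarith
  have h2 : ∀ m : ℕ, m < L → |g (n₀ + m) - g n₀ - (g (n₀ + 1) - g n₀) * m| ≤ lam * (L : ℝ) * m := by
    intro m
    induction m with
    | zero => intro _; simp
    | succ m ih =>
      intro hm
      have h3 := ih (by omega)
      have h4 := h1 m hm
      have h5 : lam * (m : ℝ) ≤ lam * L := by
        have : (m : ℝ) ≤ L := by exact_mod_cast (by omega : m ≤ L)
        gcongr
      have e : g (n₀ + (m + 1 : ℕ)) - g n₀ - (g (n₀ + 1) - g n₀) * ((m + 1 : ℕ) : ℝ) =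
          (g (n₀ + m) - g n₀ - (g (n₀ + 1) - g n₀) * m) +
            ((g (n₀ + m + 1) - g (n₀ + m)) - (g (n₀ + 1) - g n₀)) := by
        push_cast
        rw [show n₀ + ((m : ℤ) + 1) = n₀ + m + 1 by ring]
        ring
      rw [e]
      refine (abs_add_le _ _).trans ?_
      push_cast
      linarith
  have hmL : (m : ℝ) ≤ L := by exact_mod_cast hm.le
  calc _ ≤ lam * (L : ℝ) * m := h2 m hm
    _ ≤ lam * (L : ℝ) * L := by gcongr
    _ = lam * (L : ℝ) ^ 2 := by ring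

/-- **integer points near a curve** -/
theorem curve (δ : ℝ) (hδ : 0 < δ) : ∃ κ : ℝ, 0 < κ ∧ ∃ N₀ : ℕ, ∀ N : ℕ, N₀ ≤ N → ∀ g : ℤ → ℝ,
    (∀ n : ℤ, N ≤ n → n + 2 ≤ 2 * N → |g (n + 2) - 2 * g (n + 1) + g n| ≤ (N : ℝ) ^ (-δ)) →
    (∀ n : ℤ, N ≤ n → n ≤ 2 * N → |g n| ≤ Real.exp ((N : ℝ) ^ κ)) →
    ∀ S : Finset (ℤ × ℤ), (∀ v ∈ S, N ≤ v.1 ∧ v.1 < 2 * N ∧ |(v.2 : ℝ) - g v.1| ≤ (N : ℝ) ^ κ ∧
      Pair 2 (Real.exp ((N : ℝ) ^ κ)) v.1 v.2) → (S.card : ℝ) ≤ (N : ℝ) ^ (1 - κ) := by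
  classical
  obtain ⟨c, hc0, hc1, B₀, hch⟩ := chunk
  obtain ⟨d, hd⟩ : ∃ d : ℝ, d = min δ 1 := ⟨_, rfl⟩
  have hd0 : 0 < d := by rw [hd]; positivity
  have hd1 : d ≤ 1 := by rw [hd]; exact min_le_right _ _
  have hdδ : d ≤ δ := by rw [hd]; exact min_le_left _ _
  obtain ⟨κ, hκ⟩ : ∃ κ : ℝ, κ = c * d / 64 := ⟨_, rfl⟩
  have hcd : 0 < c * d := by positivity
  have hcd' : c * d ≤ d := by nlinarith
  have hκ0 : 0 < κ := by rw [hκ]; positivity
  -- the eventual inequalities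
  have hev : ∀ᶠ Z : ℝ in atTop, 1 ≤ Z ∧ (B₀ : ℝ) + 2 ≤ Z ^ (d / 4) ∧
      Z ^ κ + Real.log (5 * Z) ≤ Z ^ (c * d / 8) ∧ Z ^ κ + Real.log (7 * Z + 3 * Z + 7) ≤ Z ^ (c * d / 8) ∧
      2 * Z ^ (c * d / 8) ≤ Z ^ (c * d / 4) ∧
      88 * Z ^ (1 + κ - d / 16) ≤ Z ^ (1 - κ) := by
    have e1 : ∀ a b K : ℝ, a < b → 0 < K → ∀ᶠ Z : ℝ in atTop, K * Z ^ a ≤ Z ^ b := by
      intro a b K hab hK
      have h1 := (tendsto_rpow_atTop (show 0 < b - a by linarith)).eventually_ge_atTop K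
      filter_upwards [h1, eventually_gt_atTop (0 : ℝ)] with Z h2 h3
      calc K * Z ^ a ≤ Z ^ (b - a) * Z ^ a := by gcongr
        _ = Z ^ b := by rw [← Real.rpow_add h3]; congr 1; ring
    have elog : ∀ b K : ℝ, 0 < b → 0 < K → ∀ᶠ Z : ℝ in atTop, K * Real.log Z ≤ Z ^ b := by
      intro b K hb hK
      have h1 := (isLittleO_log_rpow_atTop hb).bound (show (0 : ℝ) < 1 / K by positivity)
      filter_upwards [h1, eventually_ge_atTop (1 : ℝ)] with Z h2 h3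
      rw [Real.norm_of_nonneg (Real.log_nonneg h3), Real.norm_of_nonneg (by positivity)] at h2
      rw [← le_div_iff₀' hK]
      calc Real.log Z ≤ 1 / K * Z ^ b := h2
        _ = Z ^ b / K := by ring
    filter_upwards [eventually_ge_atTop (17 : ℝ),
      (tendsto_rpow_atTop (show 0 < d / 4 by positivity)).eventually_ge_atTop ((B₀ : ℝ) + 2),
      e1 κ (c * d / 8) 2 (by rw [hκ]; linarith) two_pos, elog (c * d / 8) 4 (by positivity) (by norm_num),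
      e1 (c * d / 8) (c * d / 4) 2 (by linarith) two_pos,
      e1 (1 + κ - d / 16) (1 - κ) 88 (by rw [hκ]; linarith) (by norm_num)] with Z h1 h2 h3 h4 h5 h6
    have hZ0 : (0 : ℝ) < Z := by linarith
    have hlog : ∀ y : ℝ, 0 < y → y ≤ Z ^ 2 → Real.log y ≤ 2 * Real.log Z := by
      intro y hy hyZ
      have := Real.log_le_log hy hyZ
      rwa [Real.log_pow] at this
    have l1 := hlog (5 * Z) (by positivity) (by nlinarith)
    have l2 := hlog (7 * Z + 3 * Z + 7) (by positivity) (by nlinarith)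
    exact ⟨by linarith, h2, by linarith, by linarith, h5, h6⟩
  obtain ⟨Z₀, hZ₀⟩ := eventually_atTop.mp hev
  refine ⟨κ, hκ0, ⌈Z₀⌉₊ + 1, fun N hN g hg2 hgb S hS => ?_⟩
  have hNZ : Z₀ ≤ N := (Nat.le_ceil Z₀).trans (by exact_mod_cast (by omega : ⌈Z₀⌉₊ ≤ N))
  obtain ⟨hN1, hNB, hN3, hN4, hN5, hN6⟩ := hZ₀ N hNZ
  have hN0 : (0 : ℝ) < N := by linarith
  -- the parameters
  obtain ⟨B, hBdef⟩ : ∃ B : ℕ, B = ⌊(N : ℝ) ^ (d / 4)⌋₊ := ⟨_, rfl⟩
  have hBle : (B : ℝ) ≤ (N : ℝ) ^ (d / 4) := by rw [hBdef]; exact Nat.floor_le (by positivity)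
  have hBge' : (N : ℝ) ^ (d / 4) < B + 1 := by rw [hBdef]; exact Nat.lt_floor_add_one _
  have hB1 : 1 ≤ B := by
    have : (1 : ℝ) < B + 1 := by
      have : (0 : ℝ) ≤ B₀ := Nat.cast_nonneg _
      linarith
    have : (0 : ℝ) < B := by linarith
    exact_mod_cast this
  have hB1' : (1 : ℝ) ≤ B := by exact_mod_cast hB1
  have hBge : (N : ℝ) ^ (d / 4) / 2 ≤ B := by linarith
  have hBB₀ : B₀ ≤ B := by
    have : (B₀ : ℝ) < B := by linarith
    exact_mod_cast this.le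
  have hB0 : (0 : ℝ) < B := by linarith
  obtain ⟨L, hL⟩ : ∃ L : ℕ, L = B * B := ⟨_, rfl⟩
  have hLR : (L : ℝ) = (B : ℝ) * B := by rw [hL]; push_cast; ring
  have hL1 : 1 ≤ L := by rw [hL]; exact Nat.mul_pos hB1 hB1
  have hL0 : (0 : ℝ) < L := by exact_mod_cast hL1
  have hLle : (L : ℝ) ≤ (N : ℝ) ^ (d / 2) := by
    rw [hLR]
    calc (B : ℝ) * B ≤ (N : ℝ) ^ (d / 4) * (N : ℝ) ^ (d / 4) := by gcongr
      _ = (N : ℝ) ^ (d / 2) := by rw [← Real.rpow_add hN0]; congr 1; ring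
  have hLN : (L : ℝ) ≤ N := by
    refine hLle.trans ?_
    calc (N : ℝ) ^ (d / 2) ≤ (N : ℝ) ^ (1 : ℝ) := Real.rpow_le_rpow_of_exponent_le hN1 (by linarith)
      _ = N := Real.rpow_one _
  have hLN' : L ≤ N := by exact_mod_cast hLN
  obtain ⟨U, hU⟩ : ∃ U : ℕ, U = ⌈(N : ℝ) ^ κ⌉₊ := ⟨_, rfl⟩
  have hUge : (N : ℝ) ^ κ ≤ U := by rw [hU]; exact Nat.le_ceil _
  have hNκ : (1 : ℝ) ≤ (N : ℝ) ^ κ := Real.one_le_rpow hN1 hκ0.le
  have hUle : (U : ℝ) ≤ (N : ℝ) ^ κ + 1 := by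
    rw [hU]; exact (Nat.ceil_lt_add_one (by positivity)).le
  -- the weight
  obtain ⟨W, hW⟩ : ∃ W : ℝ, W = Real.exp ((B : ℝ) ^ c) := ⟨_, rfl⟩
  have hBc : (N : ℝ) ^ (c * d / 8) ≤ (B : ℝ) ^ c := by
    have h1 : ((N : ℝ) ^ (d / 4) / 2) ^ c ≤ (B : ℝ) ^ c := Real.rpow_le_rpow (by positivity) hBge hc0.le
    have h2 : (N : ℝ) ^ (c * d / 4) / 2 ≤ ((N : ℝ) ^ (d / 4) / 2) ^ c := by
      rw [Real.div_rpow (by positivity) (by norm_num), ← Real.rpow_mul hN0.le]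
      rw [show d / 4 * c = c * d / 4 by ring]
      have : (2 : ℝ) ^ c ≤ 2 := by
        calc (2 : ℝ) ^ c ≤ (2 : ℝ) ^ (1 : ℝ) := Real.rpow_le_rpow_of_exponent_le (by norm_num) hc1
          _ = 2 := Real.rpow_one _
      gcongr
    linarith
  have hexp : ∀ y : ℝ, 0 < y → (N : ℝ) ^ κ + Real.log y ≤ (N : ℝ) ^ (c * d / 8) →
      Real.exp ((N : ℝ) ^ κ) * y ≤ W := by
    intro y hy h
    rw [hW, ← Real.exp_log hy, ← Real.exp_add]
    exact Real.exp_le_exp.mpr (h.trans hBc)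
  have hexp1 : (1 : ℝ) ≤ Real.exp ((N : ℝ) ^ κ) := Real.one_le_exp (by positivity)
  have hW5 := hexp (5 * N) (by positivity) hN3
  have hW7 := hexp (7 * N + 3 * N + 7) (by positivity) hN4
  have hWκ : Real.exp ((N : ℝ) ^ κ) ≤ W := by
    refine le_trans ?_ hW5
    exact le_mul_of_one_le_right (by positivity) (by linarith)
  have hchunk : ChunkAt B W := by rw [hW]; exact hch B hBB₀
  -- the blocks
  set n₀ : ℕ → ℤ := fun i => min ((N : ℤ) + i * L) (2 * N - L) with hn₀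
  have hn₀1 : ∀ i, (N : ℤ) ≤ n₀ i := fun i => le_min
    (by have : (0 : ℤ) ≤ (i : ℤ) * L := by positivity
        omega) (by omega)
  have hn₀2 : ∀ i, n₀ i + L ≤ 2 * N := by
    intro i
    have : n₀ i ≤ 2 * N - L := min_le_right _ _
    omega
  set blk : ℕ → Finset (ℤ × ℤ) := fun i => S.filter (fun v => n₀ i ≤ v.1 ∧ v.1 < n₀ i + L) with hblk
  have hcover : S ⊆ (range (N / L + 1)).biUnion blk := by
    intro v hv
    obtain ⟨h1, h2, -, -⟩ := hS v hv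
    rw [mem_biUnion]
    obtain ⟨m, hm⟩ : ∃ m : ℕ, v.1 = N + m := ⟨(v.1 - N).toNat, by omega⟩
    have hmN : m < N := by omega
    refine ⟨m / L, ?_, ?_⟩
    · rw [mem_range, Nat.lt_succ_iff]
      exact Nat.div_le_div_right hmN.le
    · simp only [hblk, mem_filter]
      refine ⟨hv, ?_⟩
      have e1 : L * (m / L) ≤ m := Nat.mul_div_le m L
      have e2 : m < L * (m / L) + L := by
        have := Nat.lt_mul_div_succ m hL1
        rw [mul_add, mul_one] at this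
        exact this
      have e3 : ((m / L : ℕ) : ℤ) * L = ((L * (m / L) : ℕ) : ℤ) := by push_cast; ring
      simp only [hn₀]
      rw [e3]
      constructor
      · refine (min_le_left _ _).trans ?_
        omega
      · rcases le_total ((N : ℤ) + ((L * (m / L) : ℕ) : ℤ)) (2 * N - L) with h3 | h3
        · rw [min_eq_left h3]; omega
        · rw [min_eq_right h3]; omega
  have hblkc : ∀ i ∈ range (N / L + 1), ((blk i).card : ℝ) ≤
      (2 * (L / B : ℝ) * (2 * U + 7)) * (B : ℝ) ^ (3 / 4 : ℝ) := by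
    intro i _
    have hu : |g (n₀ i)| ≤ Real.exp ((N : ℝ) ^ κ) := hgb _ (hn₀1 i) (by have := hn₀2 i; omega)
    have hu' : |g (n₀ i + 1)| ≤ Real.exp ((N : ℝ) ^ κ) :=
      hgb _ (by have := hn₀1 i; omega) (by have := hn₀2 i; omega)
    have hu2 : |g (n₀ i + 1) - g (n₀ i)| ≤ 2 * Real.exp ((N : ℝ) ^ κ) := by
      refine (abs_sub _ _).trans ?_
      linarith
    apply block hchunk hB1 hL.ge (n₀ i) g (g (n₀ i + 1) - g (n₀ i))
    · intro m hm0 hmL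
      obtain ⟨m', rfl⟩ : ∃ m' : ℕ, m = m' := ⟨m.toNat, by omega⟩
      have h1 := linear (g := g) (n₀ := n₀ i) (L := L) (lam := (N : ℝ) ^ (-δ)) (by positivity)
        (fun k hk => by
          have := hg2 (n₀ i + k) (by have := hn₀1 i; omega) (by have := hn₀2 i; omega)
          exact this) m' (by exact_mod_cast hmL)
      rw [Int.cast_natCast]
      refine h1.trans ?_
      have h2 : (L : ℝ) ^ 2 ≤ (N : ℝ) ^ d := by
        calc (L : ℝ) ^ 2 ≤ ((N : ℝ) ^ (d / 2)) ^ 2 := by gcongr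
          _ = (N : ℝ) ^ d := by
            rw [← Real.rpow_natCast, ← Real.rpow_mul hN0.le]; congr 1; push_cast; ring
      calc (N : ℝ) ^ (-δ) * (L : ℝ) ^ 2 ≤ (N : ℝ) ^ (-δ) * (N : ℝ) ^ d := by gcongr
        _ = (N : ℝ) ^ (d - δ) := by rw [← Real.rpow_add hN0]; congr 1; ring
        _ ≤ 1 := Real.rpow_le_one_of_one_le_of_nonpos hN1 (by linarith)
    · have h1 : |((n₀ i : ℤ) : ℝ)| ≤ 2 * N := by
        have h2 := hn₀1 i
        have h3 := hn₀2 i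
        rw [abs_le]
        constructor
        · have : (0 : ℝ) ≤ ((n₀ i : ℤ) : ℝ) := by exact_mod_cast (by omega : (0 : ℤ) ≤ n₀ i)
          linarith
        · have : ((n₀ i : ℤ) : ℝ) ≤ ((2 * N : ℤ) : ℝ) := by exact_mod_cast (by omega : n₀ i ≤ 2 * N)
          push_cast at this
          exact this
      have h2 : 5 * (N : ℝ) ≤ Real.exp ((N : ℝ) ^ κ) * (5 * N) :=
        le_mul_of_one_le_left (by positivity) hexp1
      linarith
    · have hBL : (B : ℝ) ≤ N := by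
        have : (B : ℝ) ≤ L := by rw [hLR]; nlinarith
        linarith
      have e0 : (0 : ℝ) < Real.exp ((N : ℝ) ^ κ) := Real.exp_pos _
      have hUN : (U : ℝ) ≤ Real.exp ((N : ℝ) ^ κ) + 1 := by
        have := Real.add_one_le_exp ((N : ℝ) ^ κ)
        linarith
      calc |g (n₀ i)| + 3 * L * |g (n₀ i + 1) - g (n₀ i)| + U + 4 + B ≤
          Real.exp ((N : ℝ) ^ κ) + 3 * N * (2 * Real.exp ((N : ℝ) ^ κ)) + (Real.exp ((N : ℝ) ^ κ) + 1) + 4 + N := by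
            gcongr
        _ ≤ Real.exp ((N : ℝ) ^ κ) * (7 * N + 3 * N + 7) := by nlinarith
        _ ≤ W := hW7
    · intro v hv
      simp only [hblk, mem_filter] at hv
      obtain ⟨h1, h2, h3, h4⟩ := hS v hv.1
      exact ⟨hv.2.1, hv.2.2, h3.trans hUge, pair_mono h4 hWκ⟩
  have h1 : (S.card : ℝ) ≤ ∑ i ∈ range (N / L + 1), ((blk i).card : ℝ) := by
    exact_mod_cast (card_le_card hcover).trans card_biUnion_le
  refine (h1.trans (sum_le_sum hblkc)).trans ?_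
  rw [sum_const, card_range, nsmul_eq_mul]
  have h2 : (((N / L + 1 : ℕ)) : ℝ) ≤ 2 * (N / L) := by
    have h3 : ((N / L : ℕ) : ℝ) ≤ (N : ℝ) / L := Nat.cast_div_le
    have h4 : (1 : ℝ) ≤ (N : ℝ) / L := by rw [le_div_iff₀ hL0, one_mul]; exact hLN
    push_cast
    linarith
  have h3 : (2 * (U : ℝ) + 7) ≤ 11 * (N : ℝ) ^ κ := by linarith
  have h4 : (B : ℝ) ^ (3 / 4 : ℝ) = B * (B : ℝ) ^ (-(1 / 4) : ℝ) := by
    have := Real.rpow_add hB0 1 (-(1 / 4))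
    rw [Real.rpow_one] at this
    rw [← this]; norm_num
  have h5 : (B : ℝ) ^ (-(1 / 4) : ℝ) ≤ 2 * (N : ℝ) ^ (-(d / 16)) := by
    have e1 : (B : ℝ) ^ (-(1 / 4) : ℝ) ≤ ((N : ℝ) ^ (d / 4) / 2) ^ (-(1 / 4) : ℝ) :=
      Real.rpow_le_rpow_of_nonpos (by positivity) hBge (by norm_num)
    refine e1.trans ?_
    rw [Real.div_rpow (by positivity) (by norm_num), ← Real.rpow_mul hN0.le,
      show d / 4 * (-(1 / 4)) = -(d / 16) by ring, div_eq_mul_inv, ← Real.rpow_neg (by norm_num), mul_comm]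
    have : (2 : ℝ) ^ (-(-(1 / 4)) : ℝ) ≤ 2 := by
      calc (2 : ℝ) ^ (-(-(1 / 4)) : ℝ) ≤ (2 : ℝ) ^ (1 : ℝ) :=
            Real.rpow_le_rpow_of_exponent_le (by norm_num) (by norm_num)
        _ = 2 := Real.rpow_one _
    gcongr
  calc (((N / L + 1 : ℕ)) : ℝ) * ((2 * (L / B : ℝ) * (2 * U + 7)) * (B : ℝ) ^ (3 / 4 : ℝ))
      ≤ (2 * (N / L)) * ((2 * (L / B : ℝ) * (11 * (N : ℝ) ^ κ)) * (B * (2 * (N : ℝ) ^ (-(d / 16))))) := by
        rw [h4]
        gcongr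
    _ = 88 * (N * (N : ℝ) ^ κ * (N : ℝ) ^ (-(d / 16))) := by field_simp; ring
    _ = 88 * (N : ℝ) ^ (1 + κ - d / 16) := by
        rw [sub_eq_add_neg, Real.rpow_add hN0, Real.rpow_add hN0, Real.rpow_one]
    _ ≤ (N : ℝ) ^ (1 - κ) := hN6

end Pool.Agent.L5helper15.NL
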